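import Pool.Agent.H37.CND.Stmts

set_option autoImplicit false

namespace Pool.CND

theorem lon_thm (hE : S_EXP) (hZ : S_ZPW) : S_LON := by
  intro k L _ _ _ P g u i hF hu h1 hi hg x
  by_cases hx : x = 0
  · exact Or.inr hx
  refine Or.inl ?_
  have triv : ∀ y : L, y ≠ 0 → P.Ge (g y - y) (P.ord y) := by
    intro y hy
    refine P.ge_sub ?_ (P.ge_ord y)
    exact Or.inr (by rw [hF y hy])
  rcases eq_or_lt_of_le hi with hi0 | hi1
  · rw [← hi0, add_zero]; exact triv x hx
  have hi1' : 1 ≤ i := by omega
  -- the leading coefficient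
  obtain ⟨a, ha⟩ : ∃ a : k, P.Ge (g u - u - algebraMap k L a * u ^ (i + 1)) (i + 2) := by
    by_cases hz : P.Ge (g u - u) (i + 2)
    · refine ⟨0, ?_⟩
      rw [map_zero, zero_mul, sub_zero]; exact hz
    · obtain ⟨hne, hlt⟩ := P.not_ge.mp hz
      have h2 : i + 1 ≤ P.ord (g u - u) := hg.resolve_left hne
      have h3 : P.ord (g u - u) = i + 1 := by omega
      obtain ⟨c, -, hc⟩ := hE k L P u (g u - u) hu h1 hne
      rw [h3] at hc
      exact ⟨c, P.ge_mono hc (by omega)⟩
  have hpow := hZ k L P g u a i hF hu h1 hi1' ha
  have hz : ∀ t : ℤ, P.Ge (u ^ t) t := by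
    intro t
    refine Or.inr ?_
    rw [P.ord_zpow hu, h1, mul_one]
  have main : ∀ (N : ℕ) (T : ℤ) (y : L), y ≠ 0 → T - P.ord y ≤ N →
      P.Ge (g y - y) (min (P.ord y + i) T) := by
    intro N
    induction N with
    | zero =>
      intro T y hy hT
      refine P.ge_mono (triv y hy) ?_
      have : T ≤ P.ord y := by simpa using hT
      exact (min_le_right _ _).trans this
    | succ N ih =>
      intro T y hy hT
      obtain ⟨c, -, hc⟩ := hE k L P u y hu h1 hy
      set n := P.ord y with hn
      set z := y - algebraMap k L c * u ^ n with hzz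
      have hyz : y = algebraMap k L c * u ^ n + z := by rw [hzz]; ring
      have hgy : g y - y = algebraMap k L c *
          ((g (u ^ n) - u ^ n - algebraMap k L ((n : k) * a) * u ^ (n + i)) +
            algebraMap k L ((n : k) * a) * u ^ (n + i)) + (g z - z) := by
        rw [hyz, map_add, map_mul, AlgEquiv.commutes]
        ring
      rw [hgy]
      refine P.ge_add ?_ ?_
      · have h4 : P.Ge ((g (u ^ n) - u ^ n - algebraMap k L ((n : k) * a) * u ^ (n + i)) +
            algebraMap k L ((n : k) * a) * u ^ (n + i)) (n + i) := by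
          refine P.ge_add (P.ge_mono (hpow n) (by linarith)) ?_
          exact P.ge_mono (P.ge_mul (P.ge_const _) (hz (n + i))) (by linarith)
        exact P.ge_mono (P.ge_mul (P.ge_const c) h4) (by rw [zero_add]; exact min_le_left _ _)
      · by_cases hz0 : z = 0
        · rw [hz0, map_zero, sub_zero]; exact P.ge_zero _
        · have h5 : n + 1 ≤ P.ord z := hc.resolve_left hz0
          have h6 : T - P.ord z ≤ N := by
            have h7 : T - n ≤ (N : ℤ) + 1 := by
              have := hT
              push_cast at this
              exact this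
            linarith
          refine P.ge_mono (ih T z hz0 h6) ?_
          exact min_le_min (by linarith) le_rfl
  have := main (i.toNat) (P.ord x + i) x hx (by
    have : ((i.toNat : ℕ) : ℤ) = i := Int.toNat_of_nonneg hi
    rw [this]; linarith)
  rwa [min_self] at this

end Pool.CND
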