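import Pool.Agent.H37.CND.Stmts

set_option autoImplicit false

namespace Pool.CND

theorem zpw_add {k L : Type} [Field k] [Field L] [Algebra k L] (P : Place k L)
    (g : L ≃ₐ[k] L) (u : L) (a : k) (i : ℤ) (hF : Fixes P g) (hu : u ≠ 0) (h1 : P.ord u = 1)
    (hi : 1 ≤ i) (m n : ℤ)
    (hm : P.Ge (g (u ^ m) - u ^ m - algebraMap k L ((m : k) * a) * u ^ (m + i)) (m + i + 1))
    (hn : P.Ge (g (u ^ n) - u ^ n - algebraMap k L ((n : k) * a) * u ^ (n + i)) (n + i + 1)) :
    P.Ge (g (u ^ (m + n)) - u ^ (m + n) -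
      algebraMap k L (((m + n : ℤ) : k) * a) * u ^ (m + n + i)) (m + n + i + 1) := by
  have hz : ∀ t : ℤ, P.Ge (u ^ t) t := by
    intro t
    refine Or.inr ?_
    rw [P.ord_zpow hu, h1, mul_one]
  have hgz : ∀ t : ℤ, P.Ge (g (u ^ t)) t := by
    intro t
    refine Or.inr ?_
    rw [hF _ (zpow_ne_zero t hu), P.ord_zpow hu, h1, mul_one]
  have key : g (u ^ (m + n)) - u ^ (m + n) -
      algebraMap k L (((m + n : ℤ) : k) * a) * u ^ (m + n + i) =
      (g (u ^ m) - u ^ m - algebraMap k L ((m : k) * a) * u ^ (m + i)) * g (u ^ n) +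
      (u ^ m + algebraMap k L ((m : k) * a) * u ^ (m + i)) *
        (g (u ^ n) - u ^ n - algebraMap k L ((n : k) * a) * u ^ (n + i)) +
      algebraMap k L ((m : k) * a) * algebraMap k L ((n : k) * a) * u ^ (m + n + 2 * i) := by
    have e1 : u ^ (m + n) = u ^ m * u ^ n := zpow_add₀ hu m n
    have e2 : u ^ (m + i) = u ^ m * u ^ i := zpow_add₀ hu m i
    have e3 : u ^ (n + i) = u ^ n * u ^ i := zpow_add₀ hu n i
    have e4 : u ^ (m + n + i) = u ^ m * u ^ n * u ^ i := by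
      rw [zpow_add₀ hu (m + n) i, zpow_add₀ hu m n]
    have e5 : u ^ (m + n + 2 * i) = u ^ m * u ^ n * (u ^ i * u ^ i) := by
      rw [zpow_add₀ hu (m + n) (2 * i), zpow_add₀ hu m n, two_mul, zpow_add₀ hu i i]
    have e6 : g (u ^ (m + n)) = g (u ^ m) * g (u ^ n) := by rw [e1, map_mul]
    have e7 : algebraMap k L (((m + n : ℤ) : k) * a) =
        algebraMap k L ((m : k) * a) + algebraMap k L ((n : k) * a) := by
      rw [← map_add]; push_cast; ring_nf
    rw [e6, e1, e2, e3, e4, e5, e7]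
    ring
  rw [key]
  refine P.ge_add (P.ge_add ?_ ?_) ?_
  · exact P.ge_mono (P.ge_mul hm (hgz n)) (by linarith)
  · have h2 : P.Ge (u ^ m + algebraMap k L ((m : k) * a) * u ^ (m + i)) m := by
      refine P.ge_add (hz m) ?_
      exact P.ge_mono (P.ge_mul (P.ge_const _) (hz (m + i))) (by linarith)
    exact P.ge_mono (P.ge_mul h2 hn) (by linarith)
  · exact P.ge_mono (P.ge_mul (P.ge_mul (P.ge_const _) (P.ge_const _)) (hz _)) (by linarith)

theorem zpw_thm : S_ZPW := by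
  intro k L _ _ _ P g u a i hF hu h1 hi hg
  have hz : ∀ t : ℤ, P.Ge (u ^ t) t := by
    intro t
    refine Or.inr ?_
    rw [P.ord_zpow hu, h1, mul_one]
  have hgu : g u ≠ 0 := by
    intro h
    exact hu ((map_eq_zero_iff g g.injective).mp h)
  have hog : P.ord (g u) = 1 := by rw [hF u hu, h1]
  -- the case 1
  have c1 : P.Ge (g (u ^ (1 : ℤ)) - u ^ (1 : ℤ) -
      algebraMap k L (((1 : ℤ) : k) * a) * u ^ ((1 : ℤ) + i)) (1 + i + 1) := by
    have e : g (u ^ (1 : ℤ)) - u ^ (1 : ℤ) - algebraMap k L (((1 : ℤ) : k) * a) * u ^ ((1 : ℤ) + i)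
        = g u - u - algebraMap k L a * u ^ (i + 1) := by
      rw [zpow_one, add_comm 1 i, Int.cast_one, one_mul]
    rw [e]
    exact P.ge_mono hg (by linarith)
  -- the case -1
  have cm : P.Ge (g (u ^ (-1 : ℤ)) - u ^ (-1 : ℤ) -
      algebraMap k L (((-1 : ℤ) : k) * a) * u ^ ((-1 : ℤ) + i)) (-1 + i + 1) := by
    have e : g (u ^ (-1 : ℤ)) - u ^ (-1 : ℤ) -
        algebraMap k L (((-1 : ℤ) : k) * a) * u ^ ((-1 : ℤ) + i)
        = (-(g u - u - algebraMap k L a * u ^ (i + 1)) + algebraMap k L a * u ^ i * (g u - u))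
          * (u⁻¹ * (g u)⁻¹) := by
      have e1 : u ^ (-1 + i) = u⁻¹ * u ^ i := by rw [zpow_add₀ hu, zpow_neg_one]
      have e2 : u ^ (i + 1) = u ^ i * u := zpow_add_one₀ hu i
      have e3 : g (u ^ (-1 : ℤ)) = (g u)⁻¹ := by rw [zpow_neg_one, map_inv₀]
      have e4 : algebraMap k L (((-1 : ℤ) : k) * a) = - algebraMap k L a := by
        rw [← map_neg]; push_cast; ring_nf
      rw [e1, e2, e3, e4, zpow_neg_one]
      field_simp
      ring
    rw [e]
    have hgu1 : P.Ge (g u - u) (i + 1) := by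
      have : g u - u = (g u - u - algebraMap k L a * u ^ (i + 1)) + algebraMap k L a * u ^ (i + 1) := by
        ring
      rw [this]
      refine P.ge_add (P.ge_mono hg (by linarith)) ?_
      exact P.ge_mono (P.ge_mul (P.ge_const _) (hz _)) (by linarith)
    have hn : P.Ge (-(g u - u - algebraMap k L a * u ^ (i + 1)) +
        algebraMap k L a * u ^ i * (g u - u)) (i + 2) := by
      refine P.ge_add (P.ge_neg hg) ?_
      exact P.ge_mono (P.ge_mul (P.ge_mul (P.ge_const _) (hz i)) hgu1) (by linarith)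
    have hd : P.Ge (u⁻¹ * (g u)⁻¹) (-2) := by
      have a1 : P.Ge u⁻¹ (-1) := Or.inr (by rw [P.ord_inv hu, h1])
      have a2 : P.Ge (g u)⁻¹ (-1) := Or.inr (by rw [P.ord_inv hgu, hog])
      exact P.ge_mono (P.ge_mul a1 a2) (by norm_num)
    exact P.ge_mono (P.ge_mul hn hd) (by linarith)
  have c0 : P.Ge (g (u ^ (0 : ℤ)) - u ^ (0 : ℤ) -
      algebraMap k L (((0 : ℤ) : k) * a) * u ^ ((0 : ℤ) + i)) (0 + i + 1) := by
    refine Or.inl ?_
    simp
  intro n
  induction n using Int.induction_on with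
  | zero => exact c0
  | succ n ih => exact zpw_add P g u a i hF hu h1 hi n 1 ih c1
  | pred n ih =>
    have := zpw_add P g u a i hF hu h1 hi (-(n : ℤ)) (-1) ih cm
    exact this

end Pool.CND
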